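import Pool.Agent.H70.Net.Final

/-!
MP_77daaf_co, Q1: for every `ε > 0` the unit cube and some almost regular tetrahedron of error `ε`
have a common net.

The definitions (`IsSimplePolygon`, `IsNet`, `cubeSurface`, `tetSurface`, `IsTetramonohedron`,
`AlmostRegular`) are in the module `Pool.Agent.H70.Net.Defs`.

Idea.  A self-similar curve, invariant under rotations by a right angle about two lattice points
(the positions of two vertices of the cube) and under a half-turn, is approximated by simple lattice
paths `Γ`; the shape parameter `p/q` of the lattice paths takes rational values which tend to the
irrational number for which the tetrahedron is regular.  The infinite band between `Γ - W` and `Γ`,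
`W = (7q - p, 3q)`, folds periodically onto the surface of the cube `[-q, q]^3`, and it is a fundamental
domain for the translation by `W`.  Cut the band along two lines in the direction `W` at the right
distance: the piece between them covers the cube once, and rolled up along `W` it is a cylinder
whose two ends are flattened and glued to give a tetramonohedron.
-/

set_option autoImplicit false

namespace Pool.Agent.Results.MP_77daaf_co.CommonNets

open H70Net

theorem result : ∀ ε : ℝ, 0 < ε →
    ∃ V : Fin 4 → EuclideanSpace ℝ (Fin 3), IsTetramonohedron V ∧ AlmostRegular ε V ∧
      ∃ P : Set ℂ, IsNet P cubeSurface ∧ IsNet P (tetSurface V) :=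
  fun ε hε => common_net ε hε

end Pool.Agent.Results.MP_77daaf_co.CommonNets
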